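import Pool.Agent.Lib_MP_ce52b8_co.EndsConv

set_option autoImplicit false

namespace Pool.Agent.Results.MP_ce52b8_co.TwoEndedEdgeColouring

/-- Every connected, `k`-regular (in particular locally finite), vertex-transitive simple graph
with exactly two ends is `k`-edge-colourable, that is, its line graph has a proper vertex
colouring with `k` colours. `SimpleGraph.end` is the set of ends of a graph. -/
theorem result {V : Type*} (G : SimpleGraph V) [G.LocallyFinite] (k : ℕ)
    (hconn : G.Connected) (hreg : G.IsRegularOfDegree k)
    (htrans : ∀ u v : V, ∃ φ : G ≃g G, φ u = v)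
    (hends : G.end.encard = 2) :
    G.lineGraph.Colorable k :=
  Pool.Agent.Lib_MP_ce52b8_co.main G k hconn hreg htrans hends

end Pool.Agent.Results.MP_ce52b8_co.TwoEndedEdgeColouring
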